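import Pool.Agent.V5helper28.SSK.Defs

/-!
# JOB G: subsystems with equal ratios and separated slopes
-/

set_option autoImplicit false

namespace Pool.Agent.V5helper9.SSK

open Pool.Agent.V5helper28.SSK
open MeasureTheory Set Filter
open scoped ENNReal NNReal Topology

theorem X_succ {d : ℕ} {I : Type} (v : I → E d) (r : ℝ) (n : ℕ) (ω : Fin (n + 1) → I) :
    X v r (n + 1) ω = v (ω 0) + r • X v r n (Fin.tail ω) := by
  rw [X, X, Fin.sum_univ_succ, Finset.smul_sum]
  simp only [Fin.val_zero, pow_zero, one_smul, Fin.val_succ]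
  congr 1
  apply Finset.sum_congr rfl
  intro i _
  rw [smul_smul, ← pow_succ']; rfl

/-- separation of all words -/
theorem sep_of {d m : ℕ} (r D : ℝ) (hr : 0 < r) (hr1 : r < 1) (v : Fin m → E d)
    (V : Set (E d)) (hV : V.Nonempty) (hD : ∀ x ∈ V, ∀ y ∈ V, ‖x - y‖ ≤ D)
    (hv : ∀ k, ∀ x ∈ V, r • x + v k ∈ V)
    (hs : ∀ k k', k ≠ k' → r * (D + 1) ≤ ‖v k - v k'‖) : Sep v r 1 := by
  obtain ⟨x₀, hx₀⟩ := hV
  have h1 : ∀ (n : ℕ) (τ : Fin n → Fin m), X v r n τ + r ^ n • x₀ ∈ V := by
    intro n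
    induction n with
    | zero => intro τ; simpa [X] using hx₀
    | succ n ih =>
      intro τ
      have := hv (τ 0) _ (ih (Fin.tail τ))
      rw [X_succ]
      convert this using 1
      rw [smul_add, smul_smul, ← pow_succ']
      abel
  have h2 : ∀ (n : ℕ) (τ τ' : Fin n → Fin m), ‖X v r n τ - X v r n τ'‖ ≤ D := by
    intro n τ τ'
    have := hD _ (h1 n τ) _ (h1 n τ')
    rwa [add_sub_add_right_eq_sub] at this
  intro n
  induction n with
  | zero => intro ω ω' h; exact absurd (Subsingleton.elim _ _) h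
  | succ n ih =>
    intro ω ω' h
    rw [X_succ, X_succ, one_mul]
    by_cases h0 : ω 0 = ω' 0
    · have ht : Fin.tail ω ≠ Fin.tail ω' := by
        intro ht
        apply h
        rw [← Fin.cons_self_tail ω, ← Fin.cons_self_tail ω', h0, ht]
      have := ih _ _ ht
      rw [one_mul] at this
      rw [h0, add_sub_add_left_eq_sub, ← smul_sub, norm_smul, Real.norm_of_nonneg hr.le, pow_succ']
      exact mul_le_mul_of_nonneg_left this hr.le
    · have a1 := hs _ _ h0
      have a2 := h2 n (Fin.tail ω) (Fin.tail ω')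
      have a3 : v (ω 0) + r • X v r n (Fin.tail ω) - (v (ω' 0) + r • X v r n (Fin.tail ω'))
          = (v (ω 0) - v (ω' 0)) + r • (X v r n (Fin.tail ω) - X v r n (Fin.tail ω')) := by
        rw [smul_sub]; abel
      rw [a3]
      have a4 : ‖r • (X v r n (Fin.tail ω) - X v r n (Fin.tail ω'))‖ ≤ r * D := by
        rw [norm_smul, Real.norm_of_nonneg hr.le]
        exact mul_le_mul_of_nonneg_left a2 hr.le
      have a5 : ‖v (ω 0) - v (ω' 0)‖ ≤
          ‖(v (ω 0) - v (ω' 0)) + r • (X v r n (Fin.tail ω) - X v r n (Fin.tail ω'))‖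
          + ‖r • (X v r n (Fin.tail ω) - X v r n (Fin.tail ω'))‖ := norm_le_add_norm_add _ _
      have a6 : r ^ (n + 1) ≤ r := by
        calc r ^ (n + 1) = r ^ n * r := pow_succ _ _
          _ ≤ 1 * r := mul_le_mul_of_nonneg_right (pow_le_one₀ hr.le hr1.le) hr.le
          _ = r := one_mul r
      linarith

/-- compositions of length `k` -/
theorem words {d : ℕ} {I : Type} [Nonempty I] (R : I → ℝ) (b : I → E d × E d)
    (Γ : Set (E d × E d)) (hΓ : Γ = ⋃ i, (fun z => R i • z + b i) '' Γ) (k : ℕ) :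
    ∃ B : (Fin k → I) → E d × E d, (∀ u, ∀ z ∈ Γ, (∏ j, R (u j)) • z + B u ∈ Γ) ∧
      ∀ y ∈ Γ, ∃ u, ∃ z ∈ Γ, y = (∏ j, R (u j)) • z + B u := by
  induction k with
  | zero =>
    refine ⟨fun _ => 0, ?_, ?_⟩
    · intro u z hz; simpa using hz
    · intro y hy; exact ⟨Fin.elim0, y, hy, by simp⟩
  | succ k ih =>
    obtain ⟨B, h1, h2⟩ := ih
    refine ⟨fun u => R (u 0) • B (Fin.tail u) + b (u 0), ?_, ?_⟩
    · intro u z hz
      have a1 := h1 (Fin.tail u) z hz
      have a2 : (fun z => R (u 0) • z + b (u 0)) ((∏ j, R (Fin.tail u j)) • z + B (Fin.tail u)) ∈ Γ := by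
        rw [hΓ]
        exact mem_iUnion.2 ⟨u 0, mem_image_of_mem _ a1⟩
      convert a2 using 1
      rw [Fin.prod_univ_succ]
      simp only [smul_add, smul_smul, Fin.tail]
      rw [add_assoc]
    · intro y hy
      rw [hΓ] at hy
      obtain ⟨i, y', hy', e⟩ := mem_iUnion.1 hy
      obtain ⟨u, z, hz, e'⟩ := h2 y' hy'
      refine ⟨Fin.cons i u, z, hz, ?_⟩
      rw [Fin.prod_univ_succ]
      simp only [Fin.cons_zero, Fin.cons_succ, Fin.tail_cons]
      rw [← e]
      simp only
      rw [e', smul_add, smul_smul, add_assoc]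

/-- the number of ratios -/
theorem ratios {I : Type} [Fintype I] (R : I → ℝ) (k : ℕ) :
    (Finset.univ.image (fun u : Fin k → I => ∏ j, R (u j))).card ≤ (k + 1) ^ Fintype.card I := by
  classical
  have h : Finset.univ.image (fun u : Fin k → I => ∏ j, R (u j))
      ⊆ Finset.univ.image (fun c : I → Fin (k + 1) => ∏ i, R i ^ (c i : ℕ)) := by
    intro x hx
    rw [Finset.mem_image] at hx ⊢
    obtain ⟨u, _, rfl⟩ := hx
    refine ⟨fun i => ⟨(Finset.univ.filter (fun j => u j = i)).card, ?_⟩, Finset.mem_univ _, ?_⟩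
    · have := Finset.card_filter_le (Finset.univ : Finset (Fin k)) (fun j => u j = i)
      rw [Finset.card_univ, Fintype.card_fin] at this
      omega
    · simp only
      rw [← Finset.prod_fiberwise (s := Finset.univ) (g := u) (f := fun j => R (u j))]
      apply Finset.prod_congr rfl
      intro i _
      rw [Finset.prod_congr rfl (g := fun _ => R i) (by
        intro j hj
        rw [(Finset.mem_filter.1 hj).2]), Finset.prod_const]
  refine (Finset.card_le_card h).trans (Finset.card_image_le.trans ?_)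
  rw [Finset.card_univ, Fintype.card_fun, Fintype.card_fin]

/-- a maximal separated family -/
theorem maxfam {d : ℕ} {A : Type} [Fintype A] (ρ : A → ℝ) (v : A → E d) (C : ℝ) :
    ∃ F : Finset A, (∀ u ∈ F, ∀ u' ∈ F, u ≠ u' → ρ u = ρ u' → ρ u * C ≤ ‖v u - v u'‖) ∧
      ∀ u, 0 < ρ u → 0 < C → ∃ u' ∈ F, ρ u = ρ u' ∧ ‖v u - v u'‖ ≤ ρ u * C := by
  classical
  obtain ⟨F, hF, hmax⟩ := Finset.exists_maximal (s := (Finset.univ : Finset (Finset A)).filter
    (fun F => ∀ u ∈ F, ∀ u' ∈ F, u ≠ u' → ρ u = ρ u' → ρ u * C ≤ ‖v u - v u'‖))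
    ⟨∅, by simp⟩
  rw [Finset.mem_filter] at hF
  refine ⟨F, hF.2, ?_⟩
  intro u hu hC
  by_cases hmem : u ∈ F
  · exact ⟨u, hmem, rfl, by rw [sub_self, norm_zero]; positivity⟩
  by_contra hcon
  push Not at hcon
  have : insert u F ∈ (Finset.univ : Finset (Finset A)).filter
    (fun F => ∀ u ∈ F, ∀ u' ∈ F, u ≠ u' → ρ u = ρ u' → ρ u * C ≤ ‖v u - v u'‖) := by
    rw [Finset.mem_filter]
    refine ⟨Finset.mem_univ _, ?_⟩
    intro a ha a' ha' hne he
    rw [Finset.mem_insert] at ha ha'
    rcases ha with rfl | ha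
    · rcases ha' with rfl | ha'
      · exact absurd rfl hne
      · exact (hcon a' ha' he).le
    · rcases ha' with rfl | ha'
      · rw [norm_sub_rev, he]
        exact (hcon a ha he.symm).le
      · exact hF.2 a ha a' ha' hne he
  have h2 := hmax this (Finset.subset_insert u F)
  exact hmem (h2 (Finset.mem_insert_self u F))

theorem jobG : JobG := by
  classical
  intro d I _ _ R b Γ hR hΓne hΓc hΓ s hs hdim
  set V : Set (E d) := Prod.fst '' Γ with hVdef
  have hVc : IsCompact V := hΓc.image continuous_fst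
  obtain ⟨D, hD⟩ := Metric.isBounded_iff.1 hVc.isBounded
  obtain ⟨x₀, hx₀⟩ : V.Nonempty := hΓne.image _
  have hD0 : 0 ≤ D := by have := hD hx₀ hx₀; rwa [dist_self] at this
  have hD' : ∀ x ∈ V, ∀ y ∈ V, ‖x - y‖ ≤ D := fun x hx y hy => by
    rw [← dist_eq_norm]; exact hD hx hy
  choose B hB1 hB2 using words R b Γ hΓ
  choose F hF1 hF2 using fun k => maxfam (fun u : Fin k → I => ∏ j, R (u j))
    (fun u => (B k u).1) (D + 1)
  have hpos : ∀ (k : ℕ) (u : Fin k → I), 0 < ∏ j, R (u j) :=
    fun k u => Finset.prod_pos (fun j _ => (hR (u j)).1)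
  obtain ⟨i₀, hi₀⟩ : ∃ i₀, ∀ i, R i ≤ R i₀ := Finite.exists_max R
  set c : ℝ := R i₀ with hc
  have hc0 : 0 < c := (hR i₀).1
  have hc1 : c < 1 := (hR i₀).2
  have hle : ∀ (k : ℕ) (u : Fin k → I), ∏ j, R (u j) ≤ c ^ k := by
    intro k u
    calc ∏ j, R (u j) ≤ ∏ _j : Fin k, c :=
          Finset.prod_le_prod (fun j _ => (hR (u j)).1.le) (fun j _ => hi₀ (u j))
      _ = c ^ k := by rw [Finset.prod_const, Finset.card_univ, Fintype.card_fin]
  by_cases hgood : ∃ (k : ℕ) (ρ : ℝ), 1 ≤ k ∧ 0 < ρ ∧ ρ < 1 ∧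
      ρ ^ (-s) ≤ (((F k).filter (fun u => ∏ j, R (u j) = ρ)).card : ℝ)
  · obtain ⟨k, ρ, hk, hρ, hρ1, hcard⟩ := hgood
    set G := (F k).filter (fun u => ∏ j, R (u j) = ρ) with hG
    have hGm : ∀ i : Fin G.card, (G.equivFin.symm i).1 ∈ F k ∧
        ∏ j, R ((G.equivFin.symm i).1 j) = ρ := fun i =>
      Finset.mem_filter.1 (G.equivFin.symm i).2
    have hmap : ∀ (i : Fin G.card), ∀ z ∈ Γ,
        ρ • z + ((B k (G.equivFin.symm i).1).1, (B k (G.equivFin.symm i).1).2) ∈ Γ := by
      intro i z hz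
      have := hB1 k (G.equivFin.symm i).1 z hz
      rw [(hGm i).2] at this
      exact this
    have hpow : 0 < ρ ^ (-s) := Real.rpow_pos_of_pos hρ _
    have hGpos : 0 < G.card := by
      have : (0 : ℝ) < G.card := lt_of_lt_of_le hpow hcard
      exact_mod_cast this
    refine ⟨G.card, ρ, 1, fun i => (B k (G.equivFin.symm i).1).1,
      fun i => (B k (G.equivFin.symm i).1).2, hGpos, hρ, hρ1, one_pos, hmap, ?_, ?_⟩
    · apply sep_of ρ D hρ hρ1 _ V ⟨x₀, hx₀⟩ hD'
      · rintro i _ ⟨z, hz, rfl⟩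
        exact ⟨_, hmap i z hz, rfl⟩
      · intro i i' hne
        have hne' : (G.equivFin.symm i).1 ≠ (G.equivFin.symm i').1 := by
          intro h
          exact hne (G.equivFin.symm.injective (Subtype.ext h))
        have := hF1 k _ (hGm i).1 _ (hGm i').1 hne' (by rw [(hGm i).2, (hGm i').2])
        rw [(hGm i).2] at this
        exact this
    · have h1 : 0 < Real.log ρ⁻¹ := Real.log_pos ((one_lt_inv₀ hρ).2 hρ1)
      rw [le_div_iff₀ h1, Real.log_inv, mul_neg, ← neg_mul, ← Real.log_rpow hρ]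
      exact Real.log_le_log hpow hcard
  · exfalso
    push Not at hgood
    obtain ⟨s', h1, h2⟩ := ENNReal.lt_iff_exists_nnreal_btwn.1 hdim
    have hss : s < (s' : ℝ) := by
      have := (ENNReal.ofReal_lt_iff_lt_toReal hs.le ENNReal.coe_ne_top).1 h1
      simpa using this
    have hs'0 : (0 : ℝ) < s' := hs.trans hss
    set C : ℝ := 2 * (2 * D + 1) with hC
    have hC0 : 0 < C := by positivity
    -- the sum
    have key : ∀ k : ℕ, 1 ≤ k → ∑ u ∈ F k, (C * ∏ j, R (u j)) ^ (s' : ℝ)
        ≤ ((k + 1) ^ Fintype.card I : ℕ) * (C ^ (s' : ℝ) * (c ^ ((s' : ℝ) - s)) ^ k) := by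
      intro k hk
      rw [← Finset.sum_fiberwise_of_maps_to (s := F k)
        (t := Finset.univ.image (fun u : Fin k → I => ∏ j, R (u j)))
        (g := fun u => ∏ j, R (u j)) (fun u _ => Finset.mem_image_of_mem _ (Finset.mem_univ u))]
      have h3 : ∀ ρ ∈ Finset.univ.image (fun u : Fin k → I => ∏ j, R (u j)),
          ∑ u ∈ (F k).filter (fun u => ∏ j, R (u j) = ρ), (C * ∏ j, R (u j)) ^ (s' : ℝ)
          ≤ C ^ (s' : ℝ) * (c ^ ((s' : ℝ) - s)) ^ k := by
        intro ρ hρ
        obtain ⟨u₀, _, rfl⟩ := Finset.mem_image.1 hρ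
        set ρ := ∏ j, R (u₀ j) with hρdef
        have hρ0 : 0 < ρ := hpos k u₀
        have hρc : ρ ≤ c ^ k := hle k u₀
        have hρ1 : ρ < 1 := lt_of_le_of_lt hρc (pow_lt_one₀ hc0.le hc1 (by omega))
        have h4 := (hgood k ρ hk hρ0 hρ1).le
        rw [Finset.sum_congr rfl (g := fun _ => (C * ρ) ^ (s' : ℝ)) (by
          intro u hu
          rw [(Finset.mem_filter.1 hu).2]), Finset.sum_const, nsmul_eq_mul,
          Real.mul_rpow hC0.le hρ0.le]
        calc _ ≤ ρ ^ (-s) * (C ^ (s' : ℝ) * ρ ^ (s' : ℝ)) :=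
              mul_le_mul_of_nonneg_right h4 (by positivity)
          _ = C ^ (s' : ℝ) * ρ ^ ((s' : ℝ) - s) := by
              rw [sub_eq_add_neg, Real.rpow_add hρ0]; ring
          _ ≤ C ^ (s' : ℝ) * (c ^ k) ^ ((s' : ℝ) - s) := by
              apply mul_le_mul_of_nonneg_left _ (by positivity)
              exact Real.rpow_le_rpow hρ0.le hρc (by linarith)
          _ = _ := by
              rw [← Real.rpow_natCast, ← Real.rpow_mul hc0.le, mul_comm (k : ℝ),
                Real.rpow_mul hc0.le, Real.rpow_natCast]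
      refine (Finset.sum_le_card_nsmul _ _ _ h3).trans ?_
      rw [nsmul_eq_mul]
      apply mul_le_mul_of_nonneg_right _ (by positivity)
      exact_mod_cast ratios R k
    have hlim : Tendsto (fun k : ℕ => (((k + 1) ^ Fintype.card I : ℕ) : ℝ)
        * (C ^ (s' : ℝ) * (c ^ ((s' : ℝ) - s)) ^ k)) atTop (𝓝 0) := by
      set q : ℝ := c ^ ((s' : ℝ) - s) with hq
      have hq0 : 0 < q := Real.rpow_pos_of_pos hc0 _
      have hq1 : q < 1 := Real.rpow_lt_one hc0.le hc1 (by linarith)
      have h5 := (tendsto_pow_const_mul_const_pow_of_abs_lt_one (Fintype.card I)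
        (r := q) (by rw [abs_of_pos hq0]; exact hq1)).comp (tendsto_add_atTop_nat 1)
      have h6 := h5.const_mul (C ^ (s' : ℝ) * q⁻¹)
      rw [mul_zero] at h6
      refine h6.congr ?_
      intro k
      simp only [Function.comp_apply]
      push_cast
      rw [pow_succ]
      field_simp
    -- the cover
    have hcov : ∀ k : ℕ, V ⊆ ⋃ u : Fin k → I, (if u ∈ F k then
        Metric.closedBall ((∏ j, R (u j)) • x₀ + (B k u).1) ((∏ j, R (u j)) * (2 * D + 1)) else ∅) := by
      rintro k _ ⟨y, hy, rfl⟩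
      obtain ⟨u, z, hz, rfl⟩ := hB2 k y hy
      obtain ⟨u', hu', he, hn⟩ := hF2 k u (hpos k u) (by linarith)
      rw [mem_iUnion]
      refine ⟨u', ?_⟩
      rw [if_pos hu', Metric.mem_closedBall, dist_eq_norm, ← he]
      have e1 : ((∏ j, R (u j)) • z + B k u).1 - ((∏ j, R (u j)) • x₀ + (B k u').1)
          = (∏ j, R (u j)) • (z.1 - x₀) + ((B k u).1 - (B k u').1) := by
        simp only [Prod.fst_add, Prod.smul_fst, smul_sub]; abel
      rw [e1]
      refine (norm_add_le _ _).trans ?_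
      rw [norm_smul, Real.norm_of_nonneg (hpos k u).le]
      have e2 := mul_le_mul_of_nonneg_left (hD' z.1 ⟨z, hz, rfl⟩ x₀ hx₀) (hpos k u).le
      linarith
    have hdiam : ∀ (k : ℕ) (u : Fin k → I), Metric.ediam (if u ∈ F k then
        Metric.closedBall ((∏ j, R (u j)) • x₀ + (B k u).1) ((∏ j, R (u j)) * (2 * D + 1)) else ∅)
        ≤ if u ∈ F k then ENNReal.ofReal (C * ∏ j, R (u j)) else 0 := by
      intro k u
      by_cases hu : u ∈ F k
      · rw [if_pos hu, if_pos hu]
        apply Metric.ediam_le_of_forall_dist_le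
        intro x hx y hy
        rw [Metric.mem_closedBall] at hx hy
        have := dist_triangle_right x y ((∏ j, R (u j)) • x₀ + (B k u).1)
        rw [hC]
        linarith
      · rw [if_neg hu, if_neg hu]; simp
    have hmu : μH[(s' : ℝ)] V ≤ 0 := by
      have h7 : Tendsto (fun k : ℕ => ENNReal.ofReal (C * c ^ k)) atTop (𝓝 0) := by
        have := (tendsto_pow_atTop_nhds_zero_of_lt_one hc0.le hc1).const_mul C
        rw [mul_zero] at this
        have h8 := ENNReal.tendsto_ofReal this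
        rwa [ENNReal.ofReal_zero] at h8
      have h9 := Measure.hausdorffMeasure_le_liminf_sum (s' : ℝ) V (l := atTop)
        (fun k : ℕ => ENNReal.ofReal (C * c ^ k)) h7
        (fun (k : ℕ) (u : Fin k → I) => (if u ∈ F k then
          Metric.closedBall ((∏ j, R (u j)) • x₀ + (B k u).1) ((∏ j, R (u j)) * (2 * D + 1)) else ∅))
        (Eventually.of_forall (fun k u => (hdiam k u).trans (by
          split_ifs
          · exact ENNReal.ofReal_le_ofReal (mul_le_mul_of_nonneg_left (hle k u) hC0.le)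
          · exact bot_le)))
        (Eventually.of_forall hcov)
      refine h9.trans ?_
      have h10 : Tendsto (fun k : ℕ => ∑ u : Fin k → I, (Metric.ediam (if u ∈ F k then
          Metric.closedBall ((∏ j, R (u j)) • x₀ + (B k u).1) ((∏ j, R (u j)) * (2 * D + 1))
          else ∅)) ^ (s' : ℝ)) atTop (𝓝 0) := by
        have h11 := ENNReal.tendsto_ofReal hlim
        rw [ENNReal.ofReal_zero] at h11
        refine tendsto_of_tendsto_of_tendsto_of_le_of_le' tendsto_const_nhds h11
          (Eventually.of_forall (fun _ => bot_le)) ?_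
        filter_upwards [eventually_ge_atTop 1] with k hk
        refine le_trans ?_ (ENNReal.ofReal_le_ofReal (key k hk))
        rw [ENNReal.ofReal_sum_of_nonneg (fun u _ => by
          have := hpos k u
          positivity)]
        have h12 : ∀ u : Fin k → I, (Metric.ediam (if u ∈ F k then
            Metric.closedBall ((∏ j, R (u j)) • x₀ + (B k u).1) ((∏ j, R (u j)) * (2 * D + 1))
            else ∅)) ^ (s' : ℝ) ≤ if u ∈ F k then ENNReal.ofReal ((C * ∏ j, R (u j)) ^ (s' : ℝ))
              else 0 := by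
          intro u
          refine (ENNReal.rpow_le_rpow (hdiam k u) hs'0.le).trans ?_
          split_ifs
          · rw [ENNReal.ofReal_rpow_of_nonneg (mul_nonneg hC0.le (hpos k u).le) hs'0.le]
          · rw [ENNReal.zero_rpow_of_pos hs'0]
        refine (Finset.sum_le_sum (fun u _ => h12 u)).trans ?_
        rw [← Finset.sum_filter]
        apply le_of_eq
        congr 1
        ext u; simp
      rw [h10.liminf_eq]
    have h13 : dimH V ≤ s' := by
      apply dimH_le_of_hausdorffMeasure_ne_top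
      intro h14
      rw [h14] at hmu
      simp at hmu
    exact absurd h2 (not_lt.2 h13)

end Pool.Agent.V5helper9.SSK
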