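import Pool.Agent.V5helper28.SSK.DefsF

/-!
# JOB F, preliminaries: coins and layers
-/

set_option autoImplicit false

namespace Pool.Agent.V5helper9.SSK

open Pool.Agent.V5helper28.SSK

/-- words with a coin: the first coordinate in the range of `φ` is the coin -/
theorem coin {d : ℕ} {F M : Type} [Fintype F] [Fintype M] (φ : Bool × M → F)
    (hφ : Function.Injective φ) (Y : F → E d) (n : ℕ) :
    ∃ (W : Type) (_ : Fintype W) (Ψ : Bool × W → Fin n → F) (s : W → E d) (μ : W → M),
      Function.Injective Ψ ∧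
      (2 * (Fintype.card W : ℝ) = (Fintype.card F : ℝ) ^ n
        - ((Fintype.card F : ℝ) - 2 * Fintype.card M) ^ n) ∧
      ∀ b w, ∑ k, Y (Ψ (b, w) k) = s w + (if b = true then Y (φ (true, μ w)) - Y (φ (false, μ w)) else 0) := by
  classical
  induction n with
  | zero =>
    exact ⟨Empty, inferInstance, fun x => x.2.elim, fun x => x.elim, fun x => x.elim,
      fun x => x.2.elim, by simp, fun _ w => w.elim⟩
  | succ n ih =>
    obtain ⟨W, hW, Ψ, s, μ, h1, h2, h3⟩ := ih
    refine ⟨(M × (Fin n → F)) ⊕ ({f : F // f ∉ Set.range φ} × W), inferInstance,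
      fun x => Sum.elim (fun y => Fin.cons (φ (x.1, y.1)) y.2 : M × (Fin n → F) → Fin (n + 1) → F)
        (fun y => Fin.cons y.1.1 (Ψ (x.1, y.2))) x.2,
      Sum.elim (fun y => Y (φ (false, y.1)) + ∑ k, Y (y.2 k)) (fun y => Y y.1.1 + s y.2),
      Sum.elim (fun y => y.1) (fun y => μ y.2), ?_, ?_, ?_⟩
    · rintro ⟨b, (⟨m, u⟩ | ⟨f, w⟩)⟩ ⟨b', (⟨m', u'⟩ | ⟨f', w'⟩)⟩ h
      · simp only [Sum.elim_inl] at h
        obtain ⟨e1, e2⟩ := Fin.cons_inj.1 h
        have := hφ e1
        simp only [Prod.mk.injEq] at this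
        rw [this.1, this.2, e2]
      · simp only [Sum.elim_inl, Sum.elim_inr] at h
        obtain ⟨e1, e2⟩ := Fin.cons_inj.1 h
        exact absurd ⟨_, e1⟩ f'.2
      · simp only [Sum.elim_inl, Sum.elim_inr] at h
        obtain ⟨e1, e2⟩ := Fin.cons_inj.1 h
        exact absurd ⟨_, e1.symm⟩ f.2
      · simp only [Sum.elim_inr] at h
        obtain ⟨e1, e2⟩ := Fin.cons_inj.1 h
        have := h1 e2
        simp only [Prod.mk.injEq] at this
        rw [this.1, this.2, Subtype.ext e1]
    · have e : Fintype.card {f : F // f ∉ Set.range φ} + 2 * Fintype.card M = Fintype.card F := by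
        have e1 := Fintype.card_subtype_compl (fun f : F => f ∈ Set.range φ)
        have e2 : Fintype.card {f : F // f ∈ Set.range φ} = 2 * Fintype.card M := by
          have e3 := Set.card_range_of_injective hφ
          rw [Fintype.card_prod, Fintype.card_bool] at e3
          exact e3
        have e4 := Fintype.card_subtype_le (fun f : F => f ∈ Set.range φ)
        rw [e2] at e1 e4
        omega
      have e' : (Fintype.card {f : F // f ∉ Set.range φ} : ℝ)
          = (Fintype.card F : ℝ) - 2 * Fintype.card M := by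
        rw [← e]; push_cast; ring
      rw [Fintype.card_sum, Fintype.card_prod, Fintype.card_prod, Fintype.card_fun, Fintype.card_fin]
      push_cast
      rw [e']
      linear_combination ((Fintype.card F : ℝ) - 2 * Fintype.card M) * h2
    · rintro b (⟨m, u⟩ | ⟨f, w⟩)
      · simp only [Sum.elim_inl]
        rw [Fin.sum_univ_succ]
        simp only [Fin.cons_zero, Fin.cons_succ]
        cases b
        · simp
        · simp only [if_true]
          abel
      · simp only [Sum.elim_inr]
        rw [Fin.sum_univ_succ]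
        simp only [Fin.cons_zero, Fin.cons_succ]
        rw [h3, add_assoc]

theorem central_sq (n : ℕ) : 16 ^ (n + 1) ≤ 4 * (n + 1) * (n + 1).centralBinom ^ 2 := by
  induction n with
  | zero => simp [Nat.centralBinom]
  | succ n ih =>
    have h := Nat.succ_mul_centralBinom_succ (n + 1)
    have h0 : (0 : ℕ) < (n + 2) * (n + 1) := by positivity
    have h1 : 4 * (n + 2) * (n + 2).centralBinom ^ 2 * ((n + 2) * (n + 1))
        = 4 * (n + 1) * (n + 1).centralBinom ^ 2 * (2 * (2 * (n + 1) + 1)) ^ 2 := by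
      have : (4 * (n + 1)) * ((n + 1 + 1) * (n + 1 + 1).centralBinom) ^ 2
          = (4 * (n + 1)) * (2 * (2 * (n + 1) + 1) * (n + 1).centralBinom) ^ 2 := by rw [h]
      calc 4 * (n + 2) * (n + 2).centralBinom ^ 2 * ((n + 2) * (n + 1))
          = (4 * (n + 1)) * ((n + 1 + 1) * (n + 1 + 1).centralBinom) ^ 2 := by ring
        _ = _ := by rw [this]; ring
    apply Nat.le_of_mul_le_mul_right _ h0
    rw [h1]
    calc 16 ^ (n + 1 + 1) * ((n + 2) * (n + 1)) = 16 ^ (n + 1) * (16 * ((n + 2) * (n + 1))) := by ring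
      _ ≤ (4 * (n + 1) * (n + 1).centralBinom ^ 2) * (2 * (2 * (n + 1) + 1)) ^ 2 := by
        apply Nat.mul_le_mul ih
        nlinarith [sq_nonneg n]

theorem choose_step (n k : ℕ) :
    (2 * n).choose (n + k + 1) * (n + k + 1) = (2 * n).choose (n + k) * (n - k) := by
  rw [Nat.choose_succ_right_eq]
  congr 1
  omega

theorem choose_anti (n : ℕ) : Antitone (fun k => (2 * n).choose (n + k)) := by
  apply antitone_nat_of_succ_le
  intro k
  have h := choose_step n k
  have h1 : (2 * n).choose (n + k) * (n - k) ≤ (2 * n).choose (n + k) * (n + k + 1) :=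
    Nat.mul_le_mul le_rfl (by omega)
  rw [← h] at h1
  exact Nat.le_of_mul_le_mul_right h1 (by omega)

theorem choose_lower (n : ℕ) (hn : 0 < n) (k : ℕ) (hk : k ≤ n) :
    (1 - (k : ℝ) ^ 2 / n) * n.centralBinom ≤ ((2 * n).choose (n + k) : ℝ) := by
  induction k with
  | zero => simp [Nat.centralBinom]
  | succ k ih =>
    have ih' := ih (by omega)
    have h := choose_step n k
    have hn' : (0 : ℝ) < n := by exact_mod_cast hn
    have hc : ((2 * n).choose (n + (k + 1)) : ℝ) * (n + k + 1)
        = ((2 * n).choose (n + k) : ℝ) * (n - k) := by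
      have : (((2 * n).choose (n + k + 1) * (n + k + 1) : ℕ) : ℝ)
          = (((2 * n).choose (n + k) * (n - k) : ℕ) : ℝ) := by rw [h]
      rw [Nat.cast_mul, Nat.cast_mul, Nat.cast_sub (by omega)] at this
      push_cast at this
      exact this
    have hle : ((2 * n).choose (n + k) : ℝ) ≤ n.centralBinom := by
      exact_mod_cast Nat.choose_le_centralBinom (n + k) n
    have hp : (0 : ℝ) < n + k + 1 := by positivity
    have e1 : ((2 * n).choose (n + (k + 1)) : ℝ)
        = ((2 * n).choose (n + k) : ℝ) - ((2 * n).choose (n + k) : ℝ) * ((2 * k + 1) / (n + k + 1)) := by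
      field_simp
      linear_combination hc
    have e2 : ((2 * n).choose (n + k) : ℝ) * ((2 * k + 1) / (n + k + 1))
        ≤ n.centralBinom * ((2 * k + 1) / n) := by
      apply mul_le_mul hle _ (by positivity) (by positivity)
      apply div_le_div_of_nonneg_left (by positivity) hn'
      linarith [(Nat.cast_nonneg k : (0 : ℝ) ≤ k)]
    rw [e1]
    have e3 : (1 - ((k + 1 : ℕ) : ℝ) ^ 2 / n) * n.centralBinom
        = (1 - (k : ℝ) ^ 2 / n) * n.centralBinom - n.centralBinom * ((2 * k + 1) / n) := by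
      push_cast; field_simp; ring
    rw [e3]
    linarith

/-- the layers of weights `n, ..., n + L - 1` for `n = 4 L²` -/
theorem layer (L : ℕ) (hL : 1 ≤ L) :
    2 ^ (2 * (4 * L ^ 2)) ≤ 8 * (L * (2 * (4 * L ^ 2)).choose (4 * L ^ 2 + L)) := by
  set n := 4 * L ^ 2 with hn
  have hn0 : 0 < n := by positivity
  have hLn : L ≤ n := by nlinarith
  have h1 := choose_lower n hn0 L hLn
  have hL' : (0 : ℝ) < L := by exact_mod_cast hL
  have h2 : (1 - (L : ℝ) ^ 2 / n) = 3 / 4 := by
    rw [hn]; push_cast; field_simp; norm_num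
  rw [h2] at h1
  have h3 : 4 ^ n ≤ 4 * L * n.centralBinom := by
    obtain ⟨m, hm⟩ : ∃ m, n = m + 1 := ⟨n - 1, by omega⟩
    have h4 := central_sq m
    rw [← hm] at h4
    have h5 : (4 ^ n) ^ 2 ≤ (4 * L * n.centralBinom) ^ 2 := by
      calc (4 ^ n) ^ 2 = 16 ^ n := by rw [← pow_mul, mul_comm, pow_mul]; norm_num
        _ ≤ 4 * n * n.centralBinom ^ 2 := h4
        _ = (4 * L * n.centralBinom) ^ 2 := by rw [hn]; ring
    exact (Nat.pow_le_pow_iff_left (by norm_num)).1 h5
  have h3' : (4 : ℝ) ^ n ≤ 4 * L * n.centralBinom := by exact_mod_cast h3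
  have h6 : (2 : ℝ) ^ (2 * n) ≤ 8 * (L * ((2 * n).choose (n + L) : ℝ)) := by
    have : (2 : ℝ) ^ (2 * n) = 4 ^ n := by rw [pow_mul]; norm_num
    rw [this]
    have : (L : ℝ) * (3 / 4 * n.centralBinom) ≤ L * ((2 * n).choose (n + L) : ℝ) :=
      mul_le_mul_of_nonneg_left h1 hL'.le
    have h7 : (0 : ℝ) ≤ L * n.centralBinom := by positivity
    nlinarith
  exact_mod_cast h6

end Pool.Agent.V5helper9.SSK
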