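import Pool.Agent.V5helper9.SSK.F1

/-!
# JOB F
-/

set_option autoImplicit false

namespace Pool.Agent.V5helper9.SSK

open Pool.Agent.V5helper28.SSK

/-- a finite cover of the unit ball by balls of radius `τ` -/
theorem cover (d : ℕ) (τ : ℝ) (hτ : 0 < τ) :
    ∃ t : Finset (E d), t.Nonempty ∧ ∀ x : E d, ‖x‖ ≤ 1 → ∃ y ∈ t, ‖x - y‖ ≤ τ := by
  have hc : IsCompact (Metric.closedBall (0 : E d) 1) := isCompact_closedBall 0 1
  obtain ⟨t, _, ht⟩ := hc.elim_finite_subcover_image (b := Set.univ)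
    (c := fun y : E d => Metric.ball y τ) (fun _ _ => Metric.isOpen_ball)
    (fun x _ => Set.mem_biUnion (Set.mem_univ x) (Metric.mem_ball_self hτ))
  refine ⟨ht.1.toFinset, ?_, ?_⟩
  · by_contra hne
    rw [Finset.not_nonempty_iff_eq_empty] at hne
    have h0 : (0 : E d) ∈ Metric.closedBall (0 : E d) 1 := Metric.mem_closedBall_self zero_le_one
    have := ht.2 h0
    rw [Set.mem_iUnion₂] at this
    obtain ⟨y, hy, _⟩ := this
    have h1 : y ∈ ht.1.toFinset := ht.1.mem_toFinset.2 hy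
    rw [hne] at h1
    simp at h1
  · intro x hx
    have h0 : x ∈ Metric.closedBall (0 : E d) 1 := by
      rw [Metric.mem_closedBall, dist_zero_right]; exact hx
    have := ht.2 h0
    rw [Set.mem_iUnion₂] at this
    obtain ⟨y, hy, h2⟩ := this
    refine ⟨y, ht.1.mem_toFinset.2 hy, ?_⟩
    rw [Metric.mem_ball, dist_eq_norm] at h2
    exact h2.le

theorem jobF : JobF := by
  classical
  intro d p L hp hL
  set n : ℕ := 4 * L ^ 2 with hn
  have hn0 : 0 < n := by positivity
  have hj0 : (0 : ℝ) < ((2 * n : ℕ) : ℝ) := by positivity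
  obtain ⟨t, ht0, ht⟩ := cover d (1 / (2 * ((2 * n : ℕ) : ℝ))) (by positivity)
  set N : ℕ := t.card with hN
  have hN0 : 0 < N := Finset.card_pos.2 ht0
  have hN0' : (0 : ℝ) < N := by exact_mod_cast hN0
  set q : ℝ := max (1 - p / N) 0 with hq
  have hq0 : 0 ≤ q := le_max_right _ _
  have hq1 : q < 1 := by
    apply max_lt _ one_pos
    have : 0 < p / N := div_pos hp hN0'
    linarith
  obtain ⟨n₀, hn₀⟩ := exists_pow_lt_of_lt_one (y := q) (x := (1 / (2 * ((2 * n : ℕ) : ℝ))))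
    (by positivity) hq1
  refine ⟨2 * n * n₀, ?_⟩
  intro F M _ _ φ Y δ hδ hFne hφ hpM hY
  have hF0 : 0 < Fintype.card F := Fintype.card_pos
  have hF0' : (0 : ℝ) < Fintype.card F := by exact_mod_cast hF0
  -- the classes
  have hcl : ∀ m : M, ∃ y ∈ t, ‖δ⁻¹ • (Y (φ (true, m)) - Y (φ (false, m))) - y‖
      ≤ 1 / (2 * ((2 * n : ℕ) : ℝ)) := by
    intro m
    apply ht
    rw [norm_smul, norm_inv, Real.norm_of_nonneg hδ.le]
    calc δ⁻¹ * ‖Y (φ (true, m)) - Y (φ (false, m))‖ ≤ δ⁻¹ * δ := by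
          apply mul_le_mul_of_nonneg_left (hY m) (by positivity)
      _ = 1 := inv_mul_cancel₀ hδ.ne'
  choose cl hcl1 hcl2 using hcl
  obtain ⟨y₀, hy₀, hcard⟩ : ∃ y ∈ t, (Fintype.card M : ℝ) / N
      ≤ ((Finset.univ.filter (fun m => cl m = y)).card : ℝ) := by
    apply Finset.exists_le_card_fiber_of_nsmul_le_card_of_maps_to (s := Finset.univ) (t := t)
      (f := cl) (b := (Fintype.card M : ℝ) / N)
    · intro m _; exact hcl1 m
    · exact ht0
    · rw [nsmul_eq_mul, Finset.card_univ]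
      rw [← hN, mul_div_cancel₀ _ hN0'.ne']
  -- the class `M₀`
  let M₀ : Type := {m : M // cl m = y₀}
  have hM₀c : (Fintype.card M₀ : ℝ) = ((Finset.univ.filter (fun m => cl m = y₀)).card : ℝ) := by
    rw [Fintype.card_subtype]
  have hM₀l : (Fintype.card M : ℝ) / N ≤ Fintype.card M₀ := by rw [hM₀c]; exact hcard
  have hMpos : (0 : ℝ) < Fintype.card M := by
    have : 0 < p * Fintype.card F := mul_pos hp hF0'
    linarith
  have hM₀pos : (0 : ℝ) < Fintype.card M₀ := lt_of_lt_of_le (div_pos hMpos hN0') hM₀l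
  have hM₀ne : Nonempty M₀ := by
    apply Fintype.card_pos_iff.1
    exact_mod_cast hM₀pos
  obtain ⟨m₀⟩ := hM₀ne
  obtain ⟨W, hW, Ψ, s, μ, h1, h2, h3⟩ := coin (fun x : Bool × M₀ => φ (x.1, x.2.1)) (by
    rintro ⟨b, m⟩ ⟨b', m'⟩ h
    have := hφ h
    simp only [Prod.mk.injEq] at this
    rw [this.1, Subtype.ext this.2]) Y n₀
  -- the transversals
  set B : ℕ := (2 * n).choose (n + L) with hB
  have hemb : ∀ h : Fin L, Nonempty (Fin B ↪ {S : Finset (Fin (2 * n)) // S.card = n + (h : ℕ)}) := by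
    intro h
    apply Function.Embedding.nonempty_of_card_le
    rw [Fintype.card_fin, Fintype.card_finset_len, Fintype.card_fin]
    exact choose_anti n h.2.le
  let Θ : ∀ h : Fin L, Fin B ↪ {S : Finset (Fin (2 * n)) // S.card = n + (h : ℕ)} :=
    fun h => (hemb h).some
  refine ⟨m₀.1, Fin B × (Fin (2 * n) → W), inferInstance,
    fun x l => Ψ (decide ((finProdFinEquiv.symm l).1 ∈ (Θ x.1 x.2.1).1),
      x.2.2 (finProdFinEquiv.symm l).1) (finProdFinEquiv.symm l).2,
    fun x => (∑ i, s (x.2 i)) + (n : ℝ) • (Y (φ (true, m₀.1)) - Y (φ (false, m₀.1))), ?_, ?_, ?_⟩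
  · rintro ⟨h, b, w⟩ ⟨h', b', w'⟩ e
    have e1 : ∀ i : Fin (2 * n), (decide (i ∈ (Θ h b).1), w i) = (decide (i ∈ (Θ h' b').1), w' i) := by
      intro i
      apply h1
      funext k
      have := congrFun e (finProdFinEquiv (i, k))
      simpa using this
    have e2 : (Θ h b).1 = (Θ h' b').1 := by
      ext i
      have := (Prod.ext_iff.1 (e1 i)).1
      simpa using this
    have e3 : w = w' := by
      funext i
      exact (Prod.ext_iff.1 (e1 i)).2
    have e4 : h = h' := by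
      have a1 := (Θ h b).2
      have a2 := (Θ h' b').2
      rw [e2, a2] at a1
      apply Fin.ext
      omega
    subst e4
    have e5 : b = b' := (Θ h).injective (Subtype.ext e2)
    rw [e5, e3]
  · -- cardinalities
    have hg : (Fintype.card F : ℝ) - 2 * Fintype.card M₀ ≤ q * Fintype.card F := by
      have a1 : p / N * Fintype.card F ≤ 2 * Fintype.card M₀ := by
        calc p / N * Fintype.card F = (p * Fintype.card F) / N := by ring
          _ ≤ (2 * Fintype.card M) / N := div_le_div_of_nonneg_right hpM hN0'.le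
          _ = 2 * ((Fintype.card M : ℝ) / N) := by ring
          _ ≤ _ := by linarith
      have a2 : (1 - p / N) * Fintype.card F ≤ q * Fintype.card F :=
        mul_le_mul_of_nonneg_right (le_max_left _ _) hF0'.le
      linarith
    have hg0 : (0 : ℝ) ≤ (Fintype.card F : ℝ) - 2 * Fintype.card M₀ := by
      have a1 : 2 * Fintype.card M₀ ≤ Fintype.card F := by
        have := Fintype.card_le_of_injective (fun x : Bool × M₀ => φ (x.1, x.2.1)) (by
          rintro ⟨b, m⟩ ⟨b', m'⟩ h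
          have := hφ h
          simp only [Prod.mk.injEq] at this
          rw [this.1, Subtype.ext this.2])
        rw [Fintype.card_prod, Fintype.card_bool] at this
        exact this
      have : ((2 * Fintype.card M₀ : ℕ) : ℝ) ≤ Fintype.card F := by exact_mod_cast a1
      push_cast at this
      linarith
    have hW1 : (Fintype.card F : ℝ) ^ n₀ * (1 + -(1 / (2 * ((2 * n : ℕ) : ℝ))))
        ≤ 2 * (Fintype.card W : ℝ) := by
      rw [h2]
      have a1 : ((Fintype.card F : ℝ) - 2 * Fintype.card M₀) ^ n₀ ≤ (q * Fintype.card F) ^ n₀ :=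
        pow_le_pow_left₀ hg0 hg n₀
      rw [mul_pow] at a1
      have a2 : q ^ n₀ * (Fintype.card F : ℝ) ^ n₀
          ≤ (1 / (2 * ((2 * n : ℕ) : ℝ))) * (Fintype.card F : ℝ) ^ n₀ :=
        mul_le_mul_of_nonneg_right hn₀.le (by positivity)
      linarith
    have hx1 : (1 / (2 * ((2 * n : ℕ) : ℝ))) ≤ 1 := by
      rw [div_le_one (by positivity)]
      have : (1 : ℝ) ≤ ((2 * n : ℕ) : ℝ) := by
        have : 1 ≤ 2 * n := by omega
        exact_mod_cast this
      linarith
    have hW2 : (Fintype.card F : ℝ) ^ (2 * n * n₀) * (1 / 2)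
        ≤ (2 * (Fintype.card W : ℝ)) ^ (2 * n) := by
      have a1 := pow_le_pow_left₀ (mul_nonneg (by positivity) (by linarith)) hW1 (2 * n)
      rw [mul_pow, ← pow_mul, mul_comm n₀] at a1
      refine le_trans ?_ a1
      apply mul_le_mul_of_nonneg_left _ (by positivity)
      have a2 := one_add_mul_le_pow (a := -(1 / (2 * ((2 * n : ℕ) : ℝ)))) (by linarith) (2 * n)
      refine le_trans ?_ a2
      have a3 : ((2 * n : ℕ) : ℝ) * -(1 / (2 * ((2 * n : ℕ) : ℝ))) = - (1 / 2) := by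
        field_simp
      rw [a3]; norm_num
    have hlay := layer L hL
    rw [← hn, ← hB] at hlay
    have hlay' : (2 : ℝ) ^ (2 * n) ≤ 8 * (L * B) := by exact_mod_cast hlay
    rw [Fintype.card_prod, Fintype.card_fun, Fintype.card_fin, Fintype.card_fin]
    have : (Fintype.card F : ℝ) ^ (2 * n * n₀) ≤ 16 * (L * (B * (Fintype.card W : ℝ) ^ (2 * n))) := by
      rw [mul_pow] at hW2
      have a4 : (2 : ℝ) ^ (2 * n) * (Fintype.card W : ℝ) ^ (2 * n)
          ≤ 8 * (L * B) * (Fintype.card W : ℝ) ^ (2 * n) :=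
        mul_le_mul_of_nonneg_right hlay' (by positivity)
      linarith
    exact_mod_cast this
  · rintro h ⟨b, w⟩
    simp only
    have e1 : ∑ l : Fin (2 * n * n₀), Y (Ψ (decide ((finProdFinEquiv.symm l).1 ∈ (Θ h b).1),
        w (finProdFinEquiv.symm l).1) (finProdFinEquiv.symm l).2)
        = ∑ i : Fin (2 * n), ∑ k : Fin n₀, Y (Ψ (decide (i ∈ (Θ h b).1), w i) k) := by
      rw [← Fintype.sum_prod_type']
      exact Fintype.sum_equiv finProdFinEquiv.symm _ _ (fun l => rfl)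
    rw [e1]
    simp only [h3, decide_eq_true_eq]
    rw [Finset.sum_add_distrib]
    set z₀ : E d := Y (φ (true, m₀.1)) - Y (φ (false, m₀.1)) with hz₀
    have e2 : ∑ i : Fin (2 * n), (if i ∈ (Θ h b).1 then
        Y (φ (true, (μ (w i)).1)) - Y (φ (false, (μ (w i)).1)) else 0)
        = ∑ i ∈ (Θ h b).1, (Y (φ (true, (μ (w i)).1)) - Y (φ (false, (μ (w i)).1))) := by
      rw [← Finset.sum_filter]
      congr 1
      ext i; simp
    rw [e2]
    have e3 : ((n : ℝ) • z₀ + ((h : ℕ) : ℝ) • z₀) = ∑ i ∈ (Θ h b).1, z₀ := by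
      rw [Finset.sum_const, (Θ h b).2, ← add_smul, ← Nat.cast_add, Nat.cast_smul_eq_nsmul]
    have e4 : ∑ i, s (w i) + ∑ i ∈ (Θ h b).1, (Y (φ (true, (μ (w i)).1)) - Y (φ (false, (μ (w i)).1)))
        - (∑ i, s (w i) + (n : ℝ) • z₀) - ((h : ℕ) : ℝ) • z₀
        = ∑ i ∈ (Θ h b).1, ((Y (φ (true, (μ (w i)).1)) - Y (φ (false, (μ (w i)).1))) - z₀) := by
      rw [Finset.sum_sub_distrib (fun i => Y (φ (true, (μ (w i)).1)) - Y (φ (false, (μ (w i)).1)))
        (fun _ => z₀), ← e3]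
      abel
    rw [e4]
    have e5 : ∀ i ∈ (Θ h b).1, ‖(Y (φ (true, (μ (w i)).1)) - Y (φ (false, (μ (w i)).1))) - z₀‖
        ≤ δ * (1 / ((2 * n : ℕ) : ℝ)) := by
      intro i _
      set z : E d := Y (φ (true, (μ (w i)).1)) - Y (φ (false, (μ (w i)).1)) with hz
      have a1 := hcl2 (μ (w i)).1
      have a2 := hcl2 m₀.1
      rw [(μ (w i)).2, ← hz] at a1
      rw [m₀.2, ← hz₀] at a2
      have a3 : z - z₀ = δ • ((δ⁻¹ • z - y₀) - (δ⁻¹ • z₀ - y₀)) := by
        rw [sub_sub_sub_cancel_right, ← smul_sub, smul_smul, mul_inv_cancel₀ hδ.ne', one_smul]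
      rw [a3, norm_smul, Real.norm_of_nonneg hδ.le]
      apply mul_le_mul_of_nonneg_left _ hδ.le
      refine (norm_sub_le _ _).trans ?_
      have a4 : (1 / (2 * ((2 * n : ℕ) : ℝ))) + 1 / (2 * ((2 * n : ℕ) : ℝ)) = 1 / ((2 * n : ℕ) : ℝ) := by
        field_simp; norm_num
      rw [← a4]
      exact add_le_add a1 a2
    refine (norm_sum_le_of_le _ e5).trans ?_
    rw [Finset.sum_const, nsmul_eq_mul]
    have a5 : (((Θ h b).1.card : ℕ) : ℝ) ≤ ((2 * n : ℕ) : ℝ) := by
      have := Finset.card_le_univ (Θ h b).1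
      rw [Fintype.card_fin] at this
      exact_mod_cast this
    calc (((Θ h b).1.card : ℕ) : ℝ) * (δ * (1 / ((2 * n : ℕ) : ℝ)))
        ≤ ((2 * n : ℕ) : ℝ) * (δ * (1 / ((2 * n : ℕ) : ℝ))) :=
          mul_le_mul_of_nonneg_right a5 (by positivity)
      _ = δ := by field_simp

end Pool.Agent.V5helper9.SSK
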